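import Mathlib
import Pool.Agent.W952.B.Final2
import Pool.Agent.W952.B.Plain

/-!
# Circuits of depth `d` for `k`-CNF-SAT

For every `k ≥ 3`, every depth `d ≥ 2` and every `b < k / (k + d - 2)`, circuits of depth `d` which
decide `k`-CNF-SAT on `n` variables need size more than `2 ^ (n ^ b)` for all large `n`; for
3-CNF formulas the exponent is any `b < 3 / (d + 1)`. First for circuits with free negations, then
for the circuits of the problem (AND, OR and NOT gates on `m` vertices besides the inputs).

Proof: the hard formulas describe constraint satisfaction problems with `n ^ α` constraints; a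
constraint has a table of `q ^ k` clauses, `q = n ^ (1 - α)` up to constants, whose row is given by
`k` sums of three of the `q`-ary variables each; the sums of any few constraints are independent
(unique neighbours), although the number of variables is much smaller than the number of
constraints, so that random tables are far from satisfiable. Few constraints may be violated, but a
violated constraint needs a private token (Hall's theorem); this makes the problem symmetric enough
to remove the output gate, of either type. The remaining `d - 2` levels cost a factor `n ^ α` each in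
the switching lemma, applied to the Moebius coefficients of medium size of the function
of the set of planted constraints of a hidden assignment (the method of `Pool.Agent.W951.AC.Core`).
-/

set_option autoImplicit false

namespace Pool.Agent.Results.MP_b53add_lc.AllDepths

open Pool.Agent.H596R2.D3

theorem result :
    (∀ k : ℕ, 3 ≤ k → ∀ d : ℕ, 2 ≤ d → ∀ b : ℝ, b < (k : ℝ) / (k + d - 2) →
      ∃ n₀ : ℕ, ∀ n : ℕ, n₀ ≤ n → ∀ C : Circuit (Clause n k) d, C.Decides →
        (2 : ℝ) ^ ((n : ℝ) ^ b) < C.size) ∧
    (∀ k : ℕ, 3 ≤ k → ∀ d : ℕ, 2 ≤ d → ∀ b : ℝ, b < (k : ℝ) / (k + d - 2) →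
      ∃ n₀ : ℕ, ∀ n : ℕ, n₀ ≤ n →
        ¬ ∃ (m : ℕ) (kind : Fin m → Fin 3)
          (predIn : Fin m → Finset {c : Finset (Fin n × Bool) // c.card ≤ k})
          (predG : Fin m → Finset (Fin m)) (o : Fin m),
          (∀ j : Fin m, ∀ i ∈ predG j, i < j) ∧
          (∀ j : Fin m, kind j = 2 → (predIn j).card + (predG j).card = 1) ∧
          (∃ lvl : Fin m → ℕ, (∀ j : Fin m, 1 ≤ lvl j) ∧
            (∀ j : Fin m, ∀ i ∈ predG j, lvl i + 1 ≤ lvl j) ∧ lvl o ≤ d) ∧
          ((m : ℝ) ≤ (2 : ℝ) ^ ((n : ℝ) ^ b)) ∧
          ∀ x : {c : Finset (Fin n × Bool) // c.card ≤ k} → Bool,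
            ((∃ v : Fin m → Bool,
              (∀ j : Fin m,
                (kind j = 0 → (v j = true ↔
                  ((∃ i ∈ predIn j, x i = true) ∨ ∃ h ∈ predG j, v h = true))) ∧
                (kind j = 1 → (v j = true ↔
                  ((∀ i ∈ predIn j, x i = true) ∧ ∀ h ∈ predG j, v h = true))) ∧
                (kind j = 2 → (v j = true ↔
                  ¬ ((∀ i ∈ predIn j, x i = true) ∧ ∀ h ∈ predG j, v h = true)))) ∧
              v o = true) ↔
            ∃ a : Fin n → Bool, ∀ c : {c : Finset (Fin n × Bool) // c.card ≤ k},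
              x c = true → ∃ l ∈ c.1, a l.1 = l.2)) := by
  have h1 := fun (k : ℕ) (hk : 3 ≤ k) (d : ℕ) (hd : 2 ≤ d) (b : ℝ)
    (hb : b < (k : ℝ) / (k + d - 2)) => Pool.Agent.W952.B.main k hk d hd b hb
  refine ⟨h1, fun k hk d hd b hb => ?_⟩
  obtain ⟨n₀, hn₀⟩ := h1 k hk d hd b hb
  refine ⟨n₀, fun n hn => ?_⟩
  rintro ⟨m, kind, predIn, predG, o, hac, hnot, hl, hm, hdec⟩
  obtain ⟨C, hC, hCm⟩ := Pool.Agent.W952.B.plain m kind predIn predG o hac hnot hl hdec
  have h2 := hn₀ n hn C hC
  have h3 : (C.size : ℝ) ≤ m := by exact_mod_cast hCm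
  linarith

end Pool.Agent.Results.MP_b53add_lc.AllDepths
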